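import Pool.Agent.Helper31.Oper.Persist

/-!
# MP_2b999a_gt, Q2: images of opers are locally maximally transverse

The definitions (`Flag`, its topology, `Flag.Transverse`, `IsHolomorphicAt`, `IsVelocity`,
`InOpenOrbit`, `IsOperAt`, `LocallyMaximallyTransverse`) are in
`Pool/Agent/Helper31/Oper/Defs.lean`.

`𝔤` is any finite dimensional complex semisimple Lie algebra with its usual topology, `Ω` is any
open subset of `ℂ` (for a `G`-oper on a closed Riemann surface of genus at least two take for `Ω`
the upper half plane, which is the universal cover), and `D : Ω → 𝓑` is any holomorphic map into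
the full flag manifold that satisfies the oper condition at every point of `Ω`.  No equivariance
and no Anosov or quasi-Hitchin hypothesis is needed.
-/

namespace Pool.Agent.Results.MP_2b999a_gt.OperImageLocallyMaximal

open Pool.Agent.Helper31.Oper

/-- The image of (the developing map of) any oper is locally maximally transverse. -/
theorem result {𝔤 : Type*} [LieRing 𝔤] [LieAlgebra ℂ 𝔤] [FiniteDimensional ℂ 𝔤]
    [LieAlgebra.IsSemisimple ℂ 𝔤]
    [TopologicalSpace 𝔤] [IsTopologicalAddGroup 𝔤] [ContinuousSMul ℂ 𝔤] [T2Space 𝔤]
    {Ω : Set ℂ} (hΩ : IsOpen Ω) (D : ℂ → Flag 𝔤) (hD : ∀ z ∈ Ω, IsOperAt D z) :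
    LocallyMaximallyTransverse (D '' Ω) :=
  image_locallyMaximallyTransverse hΩ hD

end Pool.Agent.Results.MP_2b999a_gt.OperImageLocallyMaximal
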