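import Pool.Agent.Helper31.Oper.Path3

/-!
# MP_2b999a_gt, Q1: quasi-Hitchin opers are transverse

The definitions are in `Pool/Agent/Helper31/Oper/Defs.lean` (the flag manifold `Flag 𝔤` of Borel
subalgebras and its topology, `Flag.Transverse`, `IsHolomorphicAt`, `IsVelocity`, `InOpenOrbit`,
`IsOperAt`) and `Pool/Agent/Helper31/Oper/Defs2.lean` (`Flag.map`, `IsAdjointAction`,
`IsSurfaceGroup`, `toDisc`, `IsOper`, `IsAnosov`, `expAd`, `IsFuchsian`, `IsQuasiHitchin`,
`IsTransverse`).

`𝔤` is any finite dimensional complex semisimple Lie algebra with its usual topology, `G` is any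
topological group with a continuous action `Ad` on `𝔤` by Lie algebra automorphisms (for instance
a connected complex semisimple Lie group with Lie algebra `𝔤` and its adjoint action), and
`X = Γ \ ℍ` is any closed Riemann surface of genus at least two.

Outline of the proof.  Let `(D t, ρ t)` be the path of opers, and let `T` be the set of those `t`
for which `D t` is transverse and the determinant that detects transversality vanishes to the
exact order `M = 2 * ∑ dim 𝔟⁽ᵏ⁾` on the diagonal (it vanishes at least to this order for every oper,
by Griffiths transversality of the lower central filtration).  The Fuchsian oper is in `T` by an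
explicit computation.  `T` is closed by Hurwitz' theorem, because the flags not transverse to a
given one are met by an oper in a discrete set.  `T` is open: near the diagonal by the exact order
of vanishing, in compact regions because transversality is an open condition, and near infinity
because the holonomies near an Anosov one contract uniformly, and because a transverse oper with
Anosov holonomy is transverse to its limit map.
-/

namespace Pool.Agent.Results.MP_2b999a_gt.QuasiHitchinTransverse

open Pool.Agent.Helper31.Oper
open scoped UpperHalfPlane

/-- Every quasi-Hitchin `G`-oper on a closed Riemann surface of genus at least two is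
transverse. -/
theorem result {𝔤 : Type*} [LieRing 𝔤] [LieAlgebra ℂ 𝔤] [FiniteDimensional ℂ 𝔤]
    [LieAlgebra.IsSemisimple ℂ 𝔤]
    [TopologicalSpace 𝔤] [IsTopologicalAddGroup 𝔤] [ContinuousSMul ℂ 𝔤] [T2Space 𝔤]
    {G : Type*} [Group G] [TopologicalSpace G] (Ad : G → (𝔤 ≃ₗ⁅ℂ⁆ 𝔤)) (hAd : IsAdjointAction Ad)
    {Γ : Type*} [Group Γ] [MulAction Γ ℍ] (hΓ : IsSurfaceGroup Γ)
    (D : ℍ → Flag 𝔤) (ρ : Γ →* G) (h : IsQuasiHitchin Ad D ρ) : IsTransverse D :=
  quasiHitchin_transverse hAd hΓ h

end Pool.Agent.Results.MP_2b999a_gt.QuasiHitchinTransverse
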